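import Pool.Agent.Helper95_CM.StB

/-!
# Basic lemmas for the DEL block of the CM project (MP_31342c_an)
-/

set_option autoImplicit false
set_option linter.unusedSectionVars false

noncomputable section

namespace Pool.Agent.Helper95_CM.H75

open MvPolynomial Pool.Agent.Helper95_CM

variable {n M : ℕ} {b : Bool} {R : Type} [CommRing R]

/-! ### supports -/

/-- elements supported in `P` -/
def suppSub (R : Type) [CommRing R] (P : Expo n → Prop) : Submodule R (PP n R) where
  carrier := {x | Supp P x}
  zero_mem' := by
    intro s hs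
    simp at hs
  add_mem' := by
    intro x y hx hy s hs
    rw [coeff_add] at hs
    by_cases h : coeff s x = 0
    · rw [h, zero_add] at hs
      exact hy s hs
    · exact hx s h
  smul_mem' := by
    intro r x hx s hs
    apply hx s
    intro h0
    apply hs
    rw [coeff_smul, h0, smul_zero]

lemma mem_suppSub (P : Expo n → Prop) (x : PP n R) : x ∈ suppSub R P ↔ Supp P x := Iff.rfl

/-- the cone as a submodule -/
abbrev coneSub (n : ℕ) (R : Type) [CommRing R] (M : ℕ) (b : Bool) : Submodule R (PP n R) :=
  suppSub R (InCone M b)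

lemma mem_coneSub (x : PP n R) : x ∈ coneSub n R M b ↔ IsCone M b x := Iff.rfl

lemma supp_mono {P Q : Expo n → Prop} (h : ∀ s, P s → Q s) {x : PP n R} (hx : Supp P x) :
    Supp Q x := fun s hs => h s (hx s hs)

lemma supp_mon {P : Expo n → Prop} {s : Expo n} (h : P s) : Supp P (mon s : PP n R) := by
  classical
  intro s' hs'
  unfold mon at hs'
  rw [coeff_monomial] at hs'
  by_cases h2 : s = s'
  · subst h2; exact h
  · rw [if_neg h2] at hs'
    exact absurd rfl hs'

lemma supp_monomial {P : Expo n → Prop} {s : Expo n} (h : P s) (r : R) :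
    Supp P (monomial s r : PP n R) := by
  classical
  intro s' hs'
  rw [coeff_monomial] at hs'
  by_cases h2 : s = s'
  · subst h2; exact h
  · rw [if_neg h2] at hs'
    exact absurd rfl hs'

lemma supp_mul {P Q T : Expo n → Prop} (h : ∀ s s', P s → Q s' → T (s + s')) {x y : PP n R}
    (hx : Supp P x) (hy : Supp Q y) : Supp T (x * y) := by
  classical
  intro s hs
  rw [coeff_mul] at hs
  obtain ⟨a, ha, hne⟩ := Finset.exists_ne_zero_of_sum_ne_zero hs
  rw [Finset.HasAntidiagonal.mem_antidiagonal] at ha
  rw [← ha]
  apply h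
  · apply hx
    intro h0
    apply hne
    rw [h0, zero_mul]
  · apply hy
    intro h0
    apply hne
    rw [h0, mul_zero]

lemma inCone_add {s s' : Expo n} (h : InCone M false s) (h' : InCone M b s') :
    InCone M b (s + s') := by
  cases b
  · intro k
    have h1 := h k
    have h2 := h' k
    simp only [Finsupp.add_apply]
    rw [mul_add]
    omega
  · intro k
    have h1 := h k
    have h2 := h' k
    simp only [Finsupp.add_apply]
    rw [mul_add]
    omega

lemma cone_mul {x y : PP n R} (hx : IsCone M false x) (hy : IsCone M b y) :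
    IsCone M b (x * y) := supp_mul (fun _ _ => inCone_add) hx hy

lemma levLe_mul {x y : PP n R} {l l' : ℕ} (hx : LevLe l x) (hy : LevLe l' y) :
    LevLe (l + l') (x * y) := by
  refine supp_mul ?_ hx hy
  intro s s' h h'
  simp only [Finsupp.add_apply]
  omega

lemma hasLev_mul {x y : PP n R} {l l' : ℕ} (hx : HasLev l x) (hy : HasLev l' y) :
    HasLev (l + l') (x * y) := by
  refine supp_mul ?_ hx hy
  intro s s' h h'
  simp only [Finsupp.add_apply]
  omega

lemma inCone_gex (β : Grid n M) : InCone M false (gex β) := by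
  intro k
  simp only [gex_zero, gex_succ, mul_one]
  exact Nat.lt_succ_iff.mp (β k).2

lemma mon_mul (s s' : Expo n) : (mon s : PP n R) * mon s' = mon (s + s') := by
  unfold mon
  rw [monomial_mul, one_mul]

lemma mon_zero : (mon 0 : PP n R) = 1 := rfl

lemma cone_Fp (c : Grid n M → R) : IsCone M false (Fp c) := by
  rw [← mem_coneSub]
  unfold Fp
  exact Submodule.sum_mem _ fun β _ => supp_monomial (inCone_gex β) _

lemma lev_Fp (c : Grid n M → R) : HasLev 1 (Fp c) := by
  have h : Fp c ∈ suppSub R (fun s : Expo n => s 0 = 1) := by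
    unfold Fp
    exact Submodule.sum_mem _ fun β _ => supp_monomial (gex_zero β) _
  exact h

lemma coeff_th (i : Fin (n + 1)) (x : PP n R) (s : Expo n) :
    coeff s (th i x) = (s i : R) * coeff s x := by
  classical
  induction x using MvPolynomial.induction_on' with
  | monomial s' r =>
    unfold th
    rw [Derivation.smul_apply, smul_eq_mul, pderiv_monomial, X, monomial_mul, one_mul]
    by_cases h0 : s' i = 0
    · rw [h0]
      simp only [Nat.cast_zero, mul_zero, map_zero, coeff_zero]
      rw [coeff_monomial]
      split_ifs with h1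
      · rw [← h1, h0]; simp
      · simp
    · have h2 : Finsupp.single i 1 + (s' - Finsupp.single i 1) = s' := by
        ext j
        simp only [Finsupp.add_apply, Finsupp.tsub_apply]
        by_cases hj : i = j
        · subst hj
          rw [Finsupp.single_eq_same]
          omega
        · rw [Finsupp.single_eq_of_ne' hj]
          omega
      rw [h2, coeff_monomial, coeff_monomial]
      split_ifs with h1
      · rw [h1]; ring
      · simp
  | add x y hx hy =>
    rw [map_add, coeff_add, coeff_add, hx, hy, mul_add]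

lemma supp_th {P : Expo n → Prop} (i : Fin (n + 1)) {x : PP n R} (hx : Supp P x) :
    Supp P (th i x) := by
  intro s hs
  rw [coeff_th] at hs
  apply hx
  intro h0
  apply hs
  rw [h0, mul_zero]

lemma th_mon (i : Fin (n + 1)) (s : Expo n) : th i (mon s : PP n R) = C (s i : R) * mon s := by
  classical
  ext s'
  rw [coeff_th, coeff_C_mul]
  unfold mon
  rw [coeff_monomial]
  split_ifs with h
  · rw [h]
  · simp

lemma cone_Yp (c : Grid n M → R) (i : Fin (n + 1)) : IsCone M false (Yp c i) :=
  supp_th i (cone_Fp c)

lemma lev_Yp (c : Grid n M → R) (i : Fin (n + 1)) : HasLev 1 (Yp c i) :=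
  supp_th i (lev_Fp c)

lemma cone_Dop (c : Grid n M → R) (i : Fin (n + 1)) {x : PP n R} (hx : IsCone M b x) :
    IsCone M b (Dop c i x) := by
  rw [Dop_apply, ← mem_coneSub]
  exact Submodule.sub_mem _ (supp_th i hx) (cone_mul (cone_Yp c i) hx)

lemma supp_cder {P : Expo n → Prop} (d : R →+ R) {x : PP n R} (hx : Supp P x) :
    Supp P (cder d x) := by
  intro s hs
  rw [coeff_cder] at hs
  apply hx
  intro h0
  apply hs
  rw [h0, map_zero]

lemma cone_nab (d : R →+ R) (c : Grid n M → R) {x : PP n R} (hx : IsCone M b x) :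
    IsCone M b (nab d c x) := by
  unfold nab
  rw [← mem_coneSub]
  exact Submodule.sub_mem _ (supp_cder d hx) (cone_mul (supp_cder d (cone_Fp c)) hx)

/-! ### derivations -/

lemma isDer_one {d : R →+ R} (hd : IsDer d) : d 1 = 0 := by
  have h := hd 1 1
  rw [mul_one, mul_one, one_mul] at h
  have h2 : d 1 + 0 = d 1 + d 1 := by rw [add_zero]; exact h
  exact (add_left_cancel h2).symm

lemma isDer_nat {d : R →+ R} (hd : IsDer d) (k : ℕ) : d (k : R) = 0 := by
  rw [← nsmul_one, map_nsmul, isDer_one hd, smul_zero]

lemma cder_add (d : R →+ R) (x y : PP n R) : cder d (x + y) = cder d x + cder d y := by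
  ext s
  rw [coeff_cder, coeff_add, coeff_add, map_add, coeff_cder, coeff_cder]

lemma cder_zero (d : R →+ R) : cder d (0 : PP n R) = 0 := by
  ext s
  rw [coeff_cder, coeff_zero, map_zero]

/-- `cder` as an additive map -/
def cderA (d : R →+ R) : PP n R →+ PP n R where
  toFun := cder d
  map_zero' := cder_zero d
  map_add' := cder_add d

lemma cderA_apply (d : R →+ R) (x : PP n R) : cderA d x = cder d x := rfl

lemma cder_sub (d : R →+ R) (x y : PP n R) : cder d (x - y) = cder d x - cder d y :=
  map_sub (cderA d) x y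

lemma cder_sum {ι : Type} (d : R →+ R) (t : Finset ι) (x : ι → PP n R) :
    cder d (∑ i ∈ t, x i) = ∑ i ∈ t, cder d (x i) := map_sum (cderA d) x t

lemma cder_monomial (d : R →+ R) (s : Expo n) (r : R) :
    cder d (monomial s r : PP n R) = monomial s (d r) := by
  classical
  ext s'
  rw [coeff_cder, coeff_monomial, coeff_monomial]
  split_ifs
  · rfl
  · exact map_zero d

lemma cder_mon {d : R →+ R} (hd : IsDer d) (s : Expo n) : cder d (mon s : PP n R) = 0 := by
  unfold mon
  rw [cder_monomial, isDer_one hd, map_zero]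

lemma cder_mul {d : R →+ R} (hd : IsDer d) (x y : PP n R) :
    cder d (x * y) = cder d x * y + x * cder d y := by
  classical
  ext s
  rw [coeff_cder, coeff_add, coeff_mul, coeff_mul, coeff_mul, map_sum, ← Finset.sum_add_distrib]
  apply Finset.sum_congr rfl
  intro a _
  rw [hd, coeff_cder, coeff_cder]

lemma cder_C {d : R →+ R} (r : R) : cder d (C r : PP n R) = C (d r) := by
  rw [← monomial_zero', cder_monomial, monomial_zero']

lemma cder_C_mul {d : R →+ R} (hd : IsDer d) (r : R) (x : PP n R) :
    cder d (C r * x) = C (d r) * x + C r * cder d x := by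
  rw [cder_mul hd, cder_C]

lemma cder_comm (d d' : R →+ R) (h : ∀ x, d (d' x) = d' (d x)) (x : PP n R) :
    cder d (cder d' x) = cder d' (cder d x) := by
  ext s
  rw [coeff_cder, coeff_cder, coeff_cder, coeff_cder, h]

lemma cder_th {d : R →+ R} (hd : IsDer d) (i : Fin (n + 1)) (x : PP n R) :
    cder d (th i x) = th i (cder d x) := by
  ext s
  rw [coeff_cder, coeff_th, coeff_th, coeff_cder, hd, isDer_nat hd, zero_mul, zero_add]

lemma th_comm (i j : Fin (n + 1)) (x : PP n R) : th i (th j x) = th j (th i x) := by
  ext s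
  rw [coeff_th, coeff_th, coeff_th, coeff_th]
  ring

lemma th_mul (i : Fin (n + 1)) (x y : PP n R) : th i (x * y) = th i x * y + x * th i y := by
  rw [Derivation.leibniz, smul_eq_mul, smul_eq_mul]
  ring

lemma nab_add (d : R →+ R) (c : Grid n M → R) (x y : PP n R) :
    nab d c (x + y) = nab d c x + nab d c y := by
  unfold nab
  rw [cder_add, mul_add]
  ring

/-- `nab` as an additive map -/
def nabA (d : R →+ R) (c : Grid n M → R) : PP n R →+ PP n R where
  toFun := nab d c
  map_zero' := by unfold nab; rw [cder_zero]; simp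
  map_add' := nab_add d c

lemma nabA_apply (d : R →+ R) (c : Grid n M → R) (x : PP n R) : nabA d c x = nab d c x := rfl

lemma nab_smul {d : R →+ R} (hd : IsDer d) (c : Grid n M → R) (r : R) (x : PP n R) :
    nab d c (r • x) = d r • x + r • nab d c x := by
  unfold nab
  rw [smul_eq_C_mul, smul_eq_C_mul, smul_eq_C_mul, cder_C_mul hd]
  ring

/-- `nab` commutes with `Dop` -/
lemma nab_Dop {d : R →+ R} (hd : IsDer d) (c : Grid n M → R) (i : Fin (n + 1)) (x : PP n R) :
    nab d c (Dop c i x) = Dop c i (nab d c x) := by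
  unfold nab
  rw [Dop_apply, Dop_apply, cder_sub, cder_th hd, cder_mul hd, map_sub, th_mul]
  unfold Yp
  rw [cder_th hd]
  ring

lemma nab_comm {d d' : R →+ R} (hd : IsDer d) (hd' : IsDer d')
    (h : ∀ x, d (d' x) = d' (d x)) (c : Grid n M → R) (x : PP n R) :
    nab d c (nab d' c x) = nab d' c (nab d c x) := by
  unfold nab
  rw [cder_sub, cder_sub, cder_mul hd, cder_mul hd', cder_comm d d' h x,
    cder_comm d d' h (Fp c)]
  ring

/-! ### the functionals `dfun` -/

lemma dfun_apply (c : Grid n M → R) (d : R →+ R) (G : PP n R → R) (x : PP n R) :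
    dfun c d G x = d (G x) - G (nab d c x) := rfl

/-- the derivative of a linear functional is linear -/
def dfunL (c : Grid n M → R) (d : R →+ R) (hd : IsDer d) (G : PP n R →ₗ[R] R) :
    PP n R →ₗ[R] R where
  toFun := dfun c d G
  map_add' x y := by
    rw [dfun_apply, dfun_apply, dfun_apply, nab_add, map_add, map_add, map_add]
    ring
  map_smul' r x := by
    have h1 : G (r • x) = r * G x := by rw [map_smul, smul_eq_mul]
    have h2 : G (nab d c (r • x)) = d r * G x + r * G (nab d c x) := by
      rw [nab_smul hd, map_add, map_smul, map_smul, smul_eq_mul, smul_eq_mul]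
    rw [dfun_apply, dfun_apply, h1, h2, hd, RingHom.id_apply, smul_eq_mul]
    ring

lemma dfunL_apply (c : Grid n M → R) (d : R →+ R) (hd : IsDer d) (G : PP n R →ₗ[R] R)
    (x : PP n R) : dfunL c d hd G x = dfun c d G x := rfl

lemma dfunL_apply' (c : Grid n M → R) (d : R →+ R) (hd : IsDer d) (G : PP n R →ₗ[R] R)
    (x : PP n R) : dfunL c d hd G x = d (G x) - G (nab d c x) := rfl

lemma killT_dfunL {c : Grid n M → R} {d : R →+ R} (hd : IsDer d) {G : PP n R →ₗ[R] R}
    (hG : KillT c G) : KillT c (dfunL c d hd G) := by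
  intro i σ hσ
  rw [dfunL_apply', hG i σ hσ, map_zero, nab_Dop hd, hG i _ (cone_nab d c hσ), sub_zero]

lemma dfunL_comm (c : Grid n M → R) {d d' : R →+ R} (hd : IsDer d) (hd' : IsDer d')
    (h : ∀ x, d (d' x) = d' (d x)) (G : PP n R →ₗ[R] R) :
    dfunL c d hd (dfunL c d' hd' G) = dfunL c d' hd' (dfunL c d hd G) := by
  ext1
  apply LinearMap.ext
  intro x
  rw [LinearMap.comp_apply, LinearMap.comp_apply]
  rw [dfunL_apply', dfunL_apply', dfunL_apply', dfunL_apply', dfunL_apply', dfunL_apply',
    nab_comm hd hd' h, map_sub, map_sub, h]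
  ring

/-- two linear maps which agree on the monomials of a set agree on the elements supported there -/
lemma lin_ext {N : Type} [AddCommGroup N] [Module R N] {P : Expo n → Prop}
    (f g : PP n R →ₗ[R] N) (h : ∀ s, P s → f (mon s) = g (mon s)) {x : PP n R}
    (hx : Supp P x) : f x = g x := by
  classical
  rw [← MvPolynomial.support_sum_monomial_coeff x, map_sum, map_sum]
  apply Finset.sum_congr rfl
  intro s hs
  have h1 : (monomial s (coeff s x) : PP n R) = coeff s x • mon s := by
    unfold mon
    rw [smul_monomial, smul_eq_mul, mul_one]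
  rw [h1, map_smul, map_smul, h s (hx s (MvPolynomial.mem_support_iff.mp hs))]

lemma add_ext {N : Type} [AddCommGroup N] {P : Expo n → Prop}
    (f g : PP n R →+ N) (h : ∀ s, P s → ∀ r : R, f (r • mon s) = g (r • mon s)) {x : PP n R}
    (hx : Supp P x) : f x = g x := by
  classical
  rw [← MvPolynomial.support_sum_monomial_coeff x, map_sum, map_sum]
  apply Finset.sum_congr rfl
  intro s hs
  have h1 : (monomial s (coeff s x) : PP n R) = coeff s x • mon s := by
    unfold mon
    rw [smul_monomial, smul_eq_mul, mul_one]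
  rw [h1, h s (hx s (MvPolynomial.mem_support_iff.mp hs))]

lemma exists_lev (x : PP n R) : ∃ l, LevLe l x := by
  classical
  refine ⟨x.support.sup fun s => s 0, ?_⟩
  intro s hs
  exact Finset.le_sup (f := fun s : Expo n => s 0) (MvPolynomial.mem_support_iff.mpr hs)

end Pool.Agent.Helper95_CM.H75
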