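import Pool.Agent.Helper75_CM.Rj

/-!
# BOX, EUL (CM project, MP_31342c_an)
-/

set_option autoImplicit false
set_option linter.unusedSectionVars false

noncomputable section

namespace Pool.Agent.Helper95_CM.H75

open MvPolynomial Pool.Agent.Helper95_CM

variable {n M : ℕ} {b : Bool} {R : Type} [CommRing R]

lemma nab_mon {pd : R →+ R} (hpd : IsDer pd) (c : Grid n M → R) (β : Grid n M)
    (hval : ∀ β', pd (c β') = if β' = β then 1 else 0) (s : Expo n) :
    nab pd c (mon s) = - (mon (gex β) * mon s) := by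
  unfold nab
  rw [cder_mon hpd, cder_Fp_delta pd c β hval, zero_sub]

/-- a functional killing the `D_i` has derivative zero on `Jac` when its value there is constant -/
lemma dfun_Jac (hj : JHorStmt) (c : Grid n M → R) (hn : 1 ≤ n) (hM : 1 ≤ M) {d : R →+ R}
    (hd : IsDer d) {G : PP n R →ₗ[R] R} (hG : KillT c G) : G (nab d c (Jac c)) = 0 := by
  obtain ⟨ξ, h1, h2⟩ := hj n M R c d hn hM hd
  rw [h2, map_sum]
  apply Finset.sum_eq_zero
  intro i _
  exact hG i _ (h1 i)

theorem box (hdet : DetStmt) (hg : GtopStmt) (hrj : RjStmt) (hj : JHorStmt) : BoxStmt := by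
  intro n M A R _ c pd hn hM hu hpd β₁ β₂ β₃ β₄ hβ x hx
  obtain ⟨hlow, hJ, hk⟩ := hg n M A R c hn hM hu
  obtain ⟨Rj, hR⟩ := hrj n M A R c pd hn hM hu hpd
  let g := gtop A c
  -- value on low monomials
  have hval : ∀ (β β' : Grid n M) (s : Expo n), InCone M true s → s 0 ≤ n →
      dfun c (pd β) (dfun c (pd β') g) (mon s) =
        pd β (g (mon (gex β') * mon s)) + pd β' (g (mon (gex β) * mon s)) +
          g (mon (gex β') * (mon (gex β) * mon s)) := by
    intro β β' s hs hsl
    have hs1 : g (mon s) = 0 := hlow _ (supp_mon hs) (supp_mon hsl)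
    have e1 : dfun c (pd β') g (mon s) = g (mon (gex β') * mon s) := by
      rw [dfun_apply, hs1, map_zero, nab_mon (hpd.der β') c β' (hpd.val β'), map_neg]
      ring
    have e2 : dfun c (pd β') g (nab (pd β) c (mon s)) = - (pd β' (g (mon (gex β) * mon s)) +
        g (mon (gex β') * (mon (gex β) * mon s))) := by
      rw [nab_mon (hpd.der β) c β (hpd.val β), dfun_apply]
      have e3 : nab (pd β') c (-(mon (gex β) * mon s)) =
          mon (gex β') * (mon (gex β) * mon s) := by
        rw [← nabA_apply, map_neg, nabA_apply, mon_mul (gex β) s,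
          nab_mon (hpd.der β') c β' (hpd.val β'), neg_neg]
      rw [e3, map_neg, map_neg]
      ring
    rw [dfun_apply c (pd β), e1, e2]
    ring
  -- level `n`
  have hval2 : ∀ (β β' : Grid n M) (s : Expo n), InCone M true s → s 0 ≤ n →
      dfun c (pd β) (dfun c (pd β') g) (mon s) =
        (if s 0 = n then - ∑ j, ((((gex β + gex β') j : ℕ)) : R) *
          Rj j (mon (gex β + gex β' + s)) else 0) + g (mon (gex β + gex β' + s)) := by
    intro β β' s hs hsl
    rw [hval β β' s hs hsl]
    have e1 : (mon (gex β') * (mon (gex β) * mon s) : PP n R) = mon (gex β + gex β' + s) := by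
      rw [mon_mul, mon_mul]
      congr 1
      abel
    rw [e1]
    congr 1
    split_ifs with h
    · rw [mon_mul, mon_mul]
      have h1 : InCone M true (gex β' + s) := inCone_add (inCone_gex β') hs
      have h2 : InCone M true (gex β + s) := inCone_add (inCone_gex β) hs
      have e2 := hR β (gex β' + s) h1 (by
        change (gex β') 0 + s 0 = n + 1
        rw [gex_zero, h]; omega)
      have e3 := hR β' (gex β + s) h2 (by
        change (gex β) 0 + s 0 = n + 1
        rw [gex_zero, h]; omega)
      change pd β (gtop A c (mon (gex β' + s))) + pd β' (gtop A c (mon (gex β + s))) = _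
      rw [e2, e3, ← neg_add, ← Finset.sum_add_distrib]
      congr 1
      apply Finset.sum_congr rfl
      intro j _
      rw [mon_mul, mon_mul]
      have e4 : gex β + (gex β' + s) = gex β + gex β' + s := by abel
      have e5 : gex β' + (gex β + s) = gex β + gex β' + s := by abel
      rw [e4, e5]
      unfold bh
      rw [Finsupp.add_apply, Nat.cast_add]
      ring
    · have h1 : ∀ β : Grid n M, g (mon (gex β) * mon s) = 0 := by
        intro β
        rw [mon_mul]
        apply hlow
        · exact supp_mon (inCone_add (inCone_gex β) hs)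
        · refine supp_mon ?_
          change (gex β) 0 + s 0 ≤ n
          rw [gex_zero]
          omega
      rw [h1, h1, map_zero, map_zero, add_zero]
  -- the difference
  let G : PP n R →ₗ[R] R :=
    dfunL c (pd β₁) (hpd.der β₁) (dfunL c (pd β₂) (hpd.der β₂) g) -
      dfunL c (pd β₃) (hpd.der β₃) (dfunL c (pd β₄) (hpd.der β₄) g)
  have hG : ∀ y, G y = dfun c (pd β₁) (dfun c (pd β₂) g) y -
      dfun c (pd β₃) (dfun c (pd β₄) g) y := fun y => rfl
  have hzero := hdet n M A R c G hn hM hu ?_ ?_ ?_ x hx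
  · rw [hG] at hzero
    exact sub_eq_zero.mp hzero
  · intro i σ hσ
    have k1 := killT_dfunL (hpd.der β₁) (killT_dfunL (hpd.der β₂) hk) i σ hσ
    have k2 := killT_dfunL (hpd.der β₃) (killT_dfunL (hpd.der β₄) hk) i σ hσ
    change (dfunL c (pd β₁) (hpd.der β₁) (dfunL c (pd β₂) (hpd.der β₂) g)) (Dop c i σ) -
      (dfunL c (pd β₃) (hpd.der β₃) (dfunL c (pd β₄) (hpd.der β₄) g)) (Dop c i σ) = 0
    rw [k1, k2, sub_zero]
  · intro s hs hsl
    rw [hG, hval2 _ _ s hs hsl, hval2 _ _ s hs hsl, hβ, sub_self]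
  · have key : ∀ β β' : Grid n M,
        dfunL c (pd β) (hpd.der β) (dfunL c (pd β') (hpd.der β') g) (Jac c) = 0 := by
      intro β β'
      rw [dfunL_apply', dfunL_apply', dfun_Jac hj c hn hM (hpd.der β')  hk,
        dfun_Jac hj c hn hM (hpd.der β) (killT_dfunL (hpd.der β') hk)]
      change pd β (pd β' (gtop A c (Jac c)) - 0) - 0 = 0
      rw [hJ, isDer_one (hpd.der β')]
      simp
    change (dfunL c (pd β₁) (hpd.der β₁) (dfunL c (pd β₂) (hpd.der β₂) g)) (Jac c) -
      (dfunL c (pd β₃) (hpd.der β₃) (dfunL c (pd β₄) (hpd.der β₄) g)) (Jac c) = 0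
    rw [key, key, sub_zero]

lemma Yp_eq (c : Grid n M → R) (i : Fin (n + 1)) :
    Yp c i = ∑ β : Grid n M, C (((bh β i : ℕ) : R) * c β) * mon (gex β) := by
  unfold Yp Fp
  rw [map_sum]
  apply Finset.sum_congr rfl
  intro β _
  have h1 : (monomial (gex β) (c β) : PP n R) = C (c β) * mon (gex β) := by
    unfold mon
    rw [C_mul_monomial, mul_one]
  rw [h1, ← smul_eq_C_mul, (th i).map_smul, th_mon, smul_eq_C_mul, ← mul_assoc, ← C_mul,
    mul_comm (c β)]
  rfl

theorem eul (hdet : DetStmt) (hg : GtopStmt) (hj : JHorStmt) : EulStmt := by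
  intro n M A R _ c pd hn hM hu hpd i x hx
  obtain ⟨hlow, hJ, hk⟩ := hg n M A R c hn hM hu
  let G : PP n R →ₗ[R] R := ∑ β : Grid n M, (((bh β i : ℕ) : R) * c β) •
    dfunL c (pd β) (hpd.der β) (gtop A c)
  have hG : ∀ y, G y = ∑ β : Grid n M, ((bh β i : ℕ) : R) * c β *
      dfun c (pd β) (gtop A c) y := by
    intro y
    change (∑ β : Grid n M, (((bh β i : ℕ) : R) * c β) •
      dfunL c (pd β) (hpd.der β) (gtop A c)) y = _
    rw [LinearMap.sum_apply]
    rfl
  rw [← hG]
  apply hdet n M A R c G hn hM hu _ _ _ x hx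
  · intro j σ hσ
    rw [hG]
    apply Finset.sum_eq_zero
    intro β _
    have := killT_dfunL (hpd.der β) hk j σ hσ
    rw [dfunL_apply] at this
    rw [this, mul_zero]
  · intro s hs hsl
    rw [hG]
    have hs1 : gtop A c (mon s) = 0 := hlow _ (supp_mon hs) (supp_mon hsl)
    have e1 : ∀ β : Grid n M, dfun c (pd β) (gtop A c) (mon s) =
        gtop A c (mon (gex β) * mon s) := by
      intro β
      rw [dfun_apply, hs1, map_zero, nab_mon (hpd.der β) c β (hpd.val β), map_neg]
      ring
    have e2 : ∑ β : Grid n M, ((bh β i : ℕ) : R) * c β * dfun c (pd β) (gtop A c) (mon s) =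
        gtop A c (Yp c i * mon s) := by
      rw [Yp_eq, Finset.sum_mul, map_sum]
      apply Finset.sum_congr rfl
      intro β _
      rw [e1, mul_assoc (C _), ← smul_eq_C_mul, map_smul, smul_eq_mul]
    rw [e2]
    have h := hk i (mon s) (supp_mon hs)
    rw [Dop_apply, map_sub, th_mon, ← smul_eq_C_mul, map_smul, hs1, smul_zero, zero_sub,
      neg_eq_zero] at h
    exact h
  · rw [hG]
    apply Finset.sum_eq_zero
    intro β _
    rw [dfun_apply, hJ, isDer_one (hpd.der β), dfun_Jac hj c hn hM (hpd.der β) hk, sub_zero,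
      mul_zero]

end Pool.Agent.Helper95_CM.H75
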