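import Pool.Agent.Helper75_CM.Base

/-!
# CONN, DEC (CM project, MP_31342c_an)
-/

set_option autoImplicit false
set_option linter.unusedSectionVars false

noncomputable section

namespace Pool.Agent.Helper95_CM.H75

open MvPolynomial Pool.Agent.Helper95_CM

theorem conn : ConnStmt := by
  classical
  intro n M l X Φ hΦ
  have key : ∀ (D : ℕ) (β γ : Fin l → Grid n M),
      ∑ m, ∑ k, ((β m k : ℕ) - (γ m k : ℕ)) = D → ∑ m, gex (β m) = ∑ m, gex (γ m) →
      Φ β = Φ γ := by
    intro D
    induction D using Nat.strong_induction_on with
    | _ D ih =>
      intro β γ hD hs
      have hk : ∀ k : Fin n, ∑ m, (β m k : ℕ) = ∑ m, (γ m k : ℕ) := by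
        intro k
        have h := DFunLike.congr_fun hs k.succ
        rw [Finsupp.finset_sum_apply, Finsupp.finset_sum_apply] at h
        simpa only [gex_succ] using h
      by_cases hall : ∀ m k, (β m k : ℕ) ≤ γ m k
      · have : β = γ := by
          funext m k
          apply Fin.ext
          have h := (Finset.sum_eq_sum_iff_of_le (s := Finset.univ)
            (f := fun m => (β m k : ℕ)) (g := fun m => (γ m k : ℕ))
            (fun m _ => hall m k)).mp (hk k)
          exact h m (Finset.mem_univ m)
        rw [this]
      · push Not at hall
        obtain ⟨i, k, hik⟩ := hall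
        have hj : ∃ j, (β j k : ℕ) < γ j k := by
          by_contra hno
          push Not at hno
          have h : ∑ m, (γ m k : ℕ) < ∑ m, (β m k : ℕ) :=
            Finset.sum_lt_sum (fun m _ => hno m) ⟨i, Finset.mem_univ i, hik⟩
          have := hk k
          omega
        obtain ⟨j, hj⟩ := hj
        have hij : i ≠ j := by
          rintro rfl
          omega
        have hjM : (γ j k : ℕ) < M + 1 := (γ j k).2
        have hiM : (β i k : ℕ) < M + 1 := (β i k).2
        let β' : Fin l → Grid n M := fun m k' =>
          if k' = k then
            (if m = i then (⟨(β i k : ℕ) - 1, by omega⟩ : Fin (M + 1))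
             else if m = j then (⟨(β j k : ℕ) + 1, by omega⟩ : Fin (M + 1)) else β m k)
          else β m k'
        have b1 : ∀ m k', k' ≠ k → β' m k' = β m k' := by
          intro m k' h
          simp only [β', if_neg h]
        have b2 : (β' i k : ℕ) = (β i k : ℕ) - 1 := by
          simp only [β', if_true]
        have b3 : (β' j k : ℕ) = (β j k : ℕ) + 1 := by
          simp only [β', if_true, if_neg hij.symm]
        have b4 : ∀ m, m ≠ i → m ≠ j → β' m = β m := by
          intro m h1 h2
          funext k'
          by_cases h : k' = k
          · subst h
            simp only [β', if_true, if_neg h1, if_neg h2]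
          · exact b1 m k' h
        have hsum2 : gex (β i) + gex (β j) = gex (β' i) + gex (β' j) := by
          ext t
          refine Fin.cases ?_ (fun k' => ?_) t
          · simp only [Finsupp.add_apply, gex_zero]
          · simp only [Finsupp.add_apply, gex_succ]
            by_cases h : k' = k
            · subst h
              rw [b2, b3]
              omega
            · rw [b1 i k' h, b1 j k' h]
        have e1 : Φ β = Φ β' := hΦ β β' i j hij (fun m h1 h2 => (b4 m h1 h2).symm) hsum2
        rw [e1]
        have hsum3 : ∑ m, gex (β' m) = ∑ m, gex (β m) := by
          rw [← Finset.add_sum_erase Finset.univ (fun m => gex (β' m)) (Finset.mem_univ i),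
            ← Finset.add_sum_erase Finset.univ (fun m => gex (β m)) (Finset.mem_univ i)]
          have hje : j ∈ Finset.univ.erase i :=
            Finset.mem_erase.mpr ⟨hij.symm, Finset.mem_univ j⟩
          rw [← Finset.add_sum_erase _ (fun m => gex (β' m)) hje,
            ← Finset.add_sum_erase _ (fun m => gex (β m)) hje]
          rw [← add_assoc, ← add_assoc, hsum2]
          congr 1
          apply Finset.sum_congr rfl
          intro m hm
          rw [Finset.mem_erase, Finset.mem_erase] at hm
          rw [b4 m hm.2.1 hm.1]
        have hle : ∀ m k', (β' m k' : ℕ) - (γ m k' : ℕ) ≤ (β m k' : ℕ) - (γ m k' : ℕ) := by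
          intro m k'
          by_cases h : k' = k
          · subst h
            by_cases h1 : m = i
            · subst h1
              rw [b2]
              omega
            · by_cases h2 : m = j
              · subst h2
                rw [b3]
                omega
              · rw [b4 m h1 h2]
          · rw [b1 m k' h]
        have hlt : ∑ m, ∑ k, ((β' m k : ℕ) - (γ m k : ℕ)) < D := by
          rw [← hD]
          apply Finset.sum_lt_sum
          · intro m _
            exact Finset.sum_le_sum fun k' _ => hle m k'
          · refine ⟨i, Finset.mem_univ i, ?_⟩
            apply Finset.sum_lt_sum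
            · intro k' _
              exact hle i k'
            · refine ⟨k, Finset.mem_univ k, ?_⟩
              rw [b2]
              omega
        exact ih _ hlt β' γ rfl (hsum3.trans hs)
  intro β γ hs
  exact key _ β γ rfl hs

theorem dec : DecStmt := by
  intro n M s hs
  refine ⟨fun m k => ⟨min M (s k.succ - M * (m : ℕ)), by omega⟩, ?_⟩
  have key : ∀ (l u : ℕ), ∑ m : Fin l, min M (u - M * (m : ℕ)) = min (M * l) u := by
    intro l u
    rw [Fin.sum_univ_eq_sum_range (fun m => min M (u - M * m)) l]
    induction l with
    | zero => simp
    | succ l ih =>
      rw [Finset.sum_range_succ, ih, Nat.mul_succ]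
      omega
  ext t
  rw [Finsupp.finset_sum_apply]
  refine Fin.cases ?_ (fun k => ?_) t
  · simp only [gex_zero, Finset.sum_const, Finset.card_univ, Fintype.card_fin, smul_eq_mul,
      mul_one]
  · simp only [gex_succ]
    rw [key]
    have := hs k
    omega

end Pool.Agent.Helper95_CM.H75
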