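import Pool.Agent.Helper75_CM.Box

/-!
# DEL (CM project, MP_31342c_an)
-/

set_option autoImplicit false
set_option linter.unusedSectionVars false

noncomputable section

namespace Pool.Agent.Helper95_CM.H75

open MvPolynomial Pool.Agent.Helper95_CM

variable {n M : ℕ} {b : Bool} {R : Type} [CommRing R]

/-- equality on the interior cone -/
def EqC (M : ℕ) (G H : PP n R →ₗ[R] R) : Prop := ∀ x, IsCone M true x → G x = H x

lemma EqC.symm {G H : PP n R →ₗ[R] R} (h : EqC M G H) : EqC M H G := fun x hx => (h x hx).symm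

lemma EqC.trans {G H K : PP n R →ₗ[R] R} (h : EqC M G H) (h' : EqC M H K) : EqC M G K :=
  fun x hx => (h x hx).trans (h' x hx)

lemma eqC_dfunL {c : Grid n M → R} {d : R →+ R} (hd : IsDer d) {G H : PP n R →ₗ[R] R}
    (h : EqC M G H) : EqC M (dfunL c d hd G) (dfunL c d hd H) := by
  intro x hx
  rw [dfunL_apply', dfunL_apply', h x hx, h _ (cone_nab d c hx)]

section
variable {c : Grid n M → R} {pd : Grid n M → R →+ R} (hpd : PDer c pd)

/-- the operators on functionals -/
def DD (β : Grid n M) (G : PP n R →ₗ[R] R) : PP n R →ₗ[R] R := dfunL c (pd β) (hpd.der β) G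

lemma DD_apply (β : Grid n M) (G : PP n R →ₗ[R] R) (x : PP n R) :
    DD hpd β G x = pd β (G x) - G (nab (pd β) c x) := rfl

lemma DD_comm (β β' : Grid n M) (G : PP n R →ₗ[R] R) :
    DD hpd β (DD hpd β' G) = DD hpd β' (DD hpd β G) :=
  dfunL_comm c (hpd.der β) (hpd.der β') (hpd.comm β β') G

instance : LeftCommutative (DD hpd) := ⟨DD_comm hpd⟩

/-- iterated derivative -/
def it (G : PP n R →ₗ[R] R) (m : Multiset (Grid n M)) : PP n R →ₗ[R] R :=
  Multiset.foldr (DD hpd) G m

lemma it_zero (G : PP n R →ₗ[R] R) : it hpd G 0 = G := rfl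

lemma it_cons (G : PP n R →ₗ[R] R) (β : Grid n M) (m : Multiset (Grid n M)) :
    it hpd G (β ::ₘ m) = DD hpd β (it hpd G m) := Multiset.foldr_cons _ _ _ _

lemma it_add (G : PP n R →ₗ[R] R) (m m' : Multiset (Grid n M)) :
    it hpd G (m + m') = it hpd (it hpd G m') m := Multiset.foldr_add _ _ _ _

lemma eqC_it {G H : PP n R →ₗ[R] R} (h : EqC M G H) (m : Multiset (Grid n M)) :
    EqC M (it hpd G m) (it hpd H m) := by
  induction m using Multiset.induction_on with
  | empty => exact h
  | cons β m ih =>
    rw [it_cons, it_cons]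
    exact eqC_dfunL (hpd.der β) ih

lemma killT_it {G : PP n R →ₗ[R] R} (h : KillT c G) (m : Multiset (Grid n M)) :
    KillT c (it hpd G m) := by
  induction m using Multiset.induction_on with
  | empty => exact h
  | cons β m ih =>
    rw [it_cons]
    exact killT_dfunL (hpd.der β) ih

/-- families with the same sum give the same iterated derivative on the cone -/
lemma it_eq (hconn : ConnStmt) {g : PP n R →ₗ[R] R}
    (hbox : ∀ β₁ β₂ β₃ β₄ : Grid n M, gex β₁ + gex β₂ = gex β₃ + gex β₄ →
      EqC M (DD hpd β₁ (DD hpd β₂ g)) (DD hpd β₃ (DD hpd β₄ g)))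
    {l l' : ℕ} (β : Fin l → Grid n M) (γ : Fin l' → Grid n M)
    (h : ∑ m, gex (β m) = ∑ m, gex (γ m)) :
    EqC M (it hpd g (Finset.univ.val.map β)) (it hpd g (Finset.univ.val.map γ)) := by
  classical
  have hl : l = l' := by
    have h1 := DFunLike.congr_fun h 0
    rw [Finsupp.finsetSum_apply, Finsupp.finsetSum_apply] at h1
    simpa using h1
  subst hl
  have h2 := hconn n M l ({x : PP n R // IsCone M true x} → R)
    (fun β x => it hpd g (Finset.univ.val.map β) x.1) (by
      intro β γ i j hij hβ hs
      funext x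
      have hdec : ∀ δ : Fin l → Grid n M, (Finset.univ : Finset (Fin l)).val.map δ =
          (((Finset.univ : Finset (Fin l)).erase i).erase j).val.map δ + (δ i ::ₘ δ j ::ₘ 0) := by
        intro δ
        have e1 : (Finset.univ : Finset (Fin l)).val =
            i ::ₘ ((Finset.univ : Finset (Fin l)).erase i).val := by
          rw [Finset.erase_val, Multiset.cons_erase (Finset.mem_univ i)]
        have hje : j ∈ (Finset.univ : Finset (Fin l)).erase i :=
          Finset.mem_erase.mpr ⟨hij.symm, Finset.mem_univ j⟩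
        have e2 : ((Finset.univ : Finset (Fin l)).erase i).val =
            j ::ₘ (((Finset.univ : Finset (Fin l)).erase i).erase j).val := by
          rw [Finset.erase_val ((Finset.univ : Finset (Fin l)).erase i) j,
            Multiset.cons_erase hje]
        rw [e1, e2, Multiset.map_cons, Multiset.map_cons, Multiset.add_cons, Multiset.add_cons,
          add_zero]
      have hrest : (((Finset.univ : Finset (Fin l)).erase i).erase j).val.map β =
          (((Finset.univ : Finset (Fin l)).erase i).erase j).val.map γ := by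
        apply Multiset.map_congr rfl
        intro m hm
        have hm2 : m ∈ ((Finset.univ : Finset (Fin l)).erase i).erase j := hm
        rw [Finset.mem_erase, Finset.mem_erase] at hm2
        exact hβ m hm2.2.1 hm2.1
      change it hpd g (Finset.univ.val.map β) x.1 = it hpd g (Finset.univ.val.map γ) x.1
      rw [hdec β, hdec γ, hrest, it_add, it_add]
      refine eqC_it hpd ?_ _ x.1 x.2
      rw [it_cons, it_cons, it_cons, it_cons, it_zero]
      exact hbox _ _ _ _ hs) β γ h
  intro x hx
  exact congrFun h2 ⟨x, hx⟩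

/-- Euler relations of the iterated derivatives -/
lemma it_eul {g : PP n R →ₗ[R] R} (i : Fin (n + 1))
    (h0 : ∀ x, IsCone M true x → ∑ β : Grid n M, ((bh β i : ℕ) : R) * c β * DD hpd β g x = 0)
    (m : Multiset (Grid n M)) : ∀ x, IsCone M true x →
    ∑ β : Grid n M, ((bh β i : ℕ) : R) * c β * DD hpd β (it hpd g m) x =
      - ((((m.map fun β => bh β i).sum : ℕ) : R) * it hpd g m x) := by
  classical
  induction m using Multiset.induction_on with
  | empty =>
    intro x hx
    rw [it_zero, h0 x hx]
    simp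
  | cons β' m ih =>
    intro x hx
    rw [it_cons]
    set G := it hpd g m with hGdef
    let e : ℕ := (m.map fun β => bh β i).sum
    let EG : PP n R →ₗ[R] R := ∑ β : Grid n M, (((bh β i : ℕ) : R) * c β) • DD hpd β G
    have hEG : ∀ y, EG y = ∑ β : Grid n M, ((bh β i : ℕ) : R) * c β * DD hpd β G y := by
      intro y
      change (∑ β : Grid n M, (((bh β i : ℕ) : R) * c β) • DD hpd β G) y = _
      rw [LinearMap.sum_apply]
      rfl
    have hEq : EqC M EG ((-(e : R)) • G) := by
      intro y hy
      rw [hEG, ih y hy, LinearMap.smul_apply, smul_eq_mul, neg_mul]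
    have h1 := eqC_dfunL (c := c) (hpd.der β') hEq x hx
    have h2 : dfunL c (pd β') (hpd.der β') EG x =
        ((bh β' i : ℕ) : R) * DD hpd β' G x +
          ∑ β : Grid n M, ((bh β i : ℕ) : R) * c β * DD hpd β' (DD hpd β G) x := by
      rw [dfunL_apply', hEG, hEG, map_sum, ← Finset.sum_sub_distrib]
      have h3 : ∀ β : Grid n M, pd β' (((bh β i : ℕ) : R) * c β * DD hpd β G x) -
          ((bh β i : ℕ) : R) * c β * DD hpd β G (nab (pd β') c x) =
          (if β = β' then ((bh β' i : ℕ) : R) * DD hpd β' G x else 0) +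
          ((bh β i : ℕ) : R) * c β * DD hpd β' (DD hpd β G) x := by
        intro β
        rw [hpd.der β', hpd.der β', isDer_nat (hpd.der β'), hpd.val,
          DD_apply hpd β' (DD hpd β G)]
        split_ifs with h
        · subst h
          ring
        · ring
      rw [Finset.sum_congr rfl fun β _ => h3 β, Finset.sum_add_distrib, Finset.sum_ite_eq',
        if_pos (Finset.mem_univ β')]
    have h4 : dfunL c (pd β') (hpd.der β') ((-(e : R)) • G) x = -((e : R) * DD hpd β' G x) := by
      rw [dfunL_apply', LinearMap.smul_apply, LinearMap.smul_apply, smul_eq_mul, smul_eq_mul,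
        hpd.der β', map_neg, isDer_nat (hpd.der β'), DD_apply]
      ring
    rw [h2, h4] at h1
    have h5 : ∀ β : Grid n M, DD hpd β (DD hpd β' G) = DD hpd β' (DD hpd β G) :=
      fun β => DD_comm hpd β β' G
    simp only [h5]
    rw [Multiset.map_cons, Multiset.sum_cons]
    have h6 : ∑ β : Grid n M, ((bh β i : ℕ) : R) * c β * DD hpd β' (DD hpd β G) x =
        -((e : R) * DD hpd β' G x) - ((bh β' i : ℕ) : R) * DD hpd β' G x := by
      rw [← h1]
      ring
    rw [h6]
    change -((e : R) * DD hpd β' G x) - ((bh β' i : ℕ) : R) * DD hpd β' G x =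
      -(((bh β' i + e : ℕ) : R) * DD hpd β' G x)
    rw [Nat.cast_add]
    ring

end

theorem del (hconn : ConnStmt) (hdec : DecStmt) (hbox : BoxStmt) (heul : EulStmt)
    (hdet : DetStmt) (hg : GtopStmt) (hj : JHorStmt) : DelStmt := by
  classical
  intro n M A R _ c pd hn hM hu hpd
  obtain ⟨hlow, hJ, hk⟩ := hg n M A R c hn hM hu
  have hb : ∀ β₁ β₂ β₃ β₄ : Grid n M, gex β₁ + gex β₂ = gex β₃ + gex β₄ →
      EqC M (DD hpd β₁ (DD hpd β₂ (gtop A c))) (DD hpd β₃ (DD hpd β₄ (gtop A c))) := by
    intro β₁ β₂ β₃ β₄ h x hx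
    exact hbox n M A R c pd hn hM hu hpd β₁ β₂ β₃ β₄ h x hx
  have hch : ∀ s : Expo n, ∃ m : Multiset (Grid n M), InCone M false s →
      ∃ β : Fin (s 0) → Grid n M, m = Finset.univ.val.map β ∧ s = ∑ m, gex (β m) := by
    intro s
    by_cases h : InCone M false s
    · obtain ⟨β, hβ⟩ := hdec n M s h
      exact ⟨Finset.univ.val.map β, fun _ => ⟨β, rfl, hβ⟩⟩
    · exact ⟨0, fun h2 => absurd h2 h⟩
  choose es hes using hch
  let del0 : Expo n → (PP n R →ₗ[R] R) := fun s =>
    if InCone M false s then ((-1 : R) ^ (s 0)) • it hpd (gtop A c) (es s) else 0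
  have hdel0 : ∀ s, InCone M false s → del0 s = ((-1 : R) ^ (s 0)) • it hpd (gtop A c) (es s) :=
    fun s hs => if_pos hs
  let δ : PP n R →ₗ[R] (PP n R →ₗ[R] R) :=
    (MvPolynomial.basisMonomials (Fin (n + 1)) R).constr R del0
  have hδ : ∀ s, δ (mon s) = del0 s := by
    intro s
    have h := (MvPolynomial.basisMonomials (Fin (n + 1)) R).constr_basis R del0 s
    rw [MvPolynomial.coe_basisMonomials] at h
    exact h
  -- (A)
  have hA : ∀ (β : Grid n M) (s : Expo n), InCone M false s →
      ∀ x, IsCone M true x → del0 (gex β + s) x = - (DD hpd β (del0 s) x) := by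
    intro β s hs x hx
    have hs' : InCone M false (gex β + s) := inCone_add (inCone_gex β) hs
    obtain ⟨γ, hγ1, hγ2⟩ := hes s hs
    obtain ⟨γ', hγ1', hγ2'⟩ := hes (gex β + s) hs'
    have h1 : EqC M (it hpd (gtop A c) (es (gex β + s))) (DD hpd β (it hpd (gtop A c) (es s))) := by
      rw [← it_cons]
      have h2 : (β ::ₘ es s) = Finset.univ.val.map (Fin.cons β γ : Fin (s 0 + 1) → Grid n M) := by
        rw [hγ1, Fin.univ_val_map, Fin.univ_val_map, List.ofFn_succ, Fin.cons_zero]
        simp only [Fin.cons_succ]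
        rfl
      rw [h2, hγ1']
      apply it_eq hpd hconn hb
      rw [← hγ2', Fin.sum_univ_succ, Fin.cons_zero]
      simp only [Fin.cons_succ]
      rw [← hγ2]
    rw [hdel0 s hs, hdel0 _ hs', LinearMap.smul_apply, h1 x hx]
    have h3 : (gex β + s) 0 = s 0 + 1 := by
      rw [Finsupp.add_apply, gex_zero, add_comm]
    have h4 : DD hpd β ((-1 : R) ^ s 0 • it hpd (gtop A c) (es s)) x =
        (-1 : R) ^ s 0 * DD hpd β (it hpd (gtop A c) (es s)) x := by
      rw [DD_apply, DD_apply, LinearMap.smul_apply, LinearMap.smul_apply, smul_eq_mul,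
        smul_eq_mul, hpd.der β]
      have h5 : pd β ((-1 : R) ^ s 0) = 0 := by
        rcases neg_one_pow_eq_or R (s 0) with h | h
        · rw [h, isDer_one (hpd.der β)]
        · rw [h, map_neg, isDer_one (hpd.der β), neg_zero]
      rw [h5]
      ring
    rw [h3, h4, smul_eq_mul, pow_succ]
    ring
  -- (C) on monomials
  have hC : ∀ (i : Fin (n + 1)) (s : Expo n), InCone M false s → ∀ x, IsCone M true x →
      δ (Dop c i (mon s)) x = 0 := by
    intro i s hs x hx
    obtain ⟨γ, hγ1, hγ2⟩ := hes s hs
    have h1 : Dop c i (mon s) = (s i : R) • mon s -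
        ∑ β : Grid n M, (((bh β i : ℕ) : R) * c β) • (mon (gex β + s) : PP n R) := by
      rw [Dop_apply, th_mon, Yp_eq, Finset.sum_mul, smul_eq_C_mul]
      congr 1
      apply Finset.sum_congr rfl
      intro β _
      rw [mul_assoc, mon_mul, smul_eq_C_mul]
    rw [h1, map_sub, map_smul, map_sum, LinearMap.sub_apply, LinearMap.smul_apply,
      LinearMap.sum_apply, hδ]
    have h2 : ∀ β : Grid n M, (δ ((((bh β i : ℕ) : R) * c β) • (mon (gex β + s) : PP n R))) x =
        - (((bh β i : ℕ) : R) * c β * DD hpd β (del0 s) x) := by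
      intro β
      rw [map_smul, LinearMap.smul_apply, hδ, hA β s hs x hx, smul_eq_mul]
      ring
    rw [Finset.sum_congr rfl fun β _ => h2 β, Finset.sum_neg_distrib]
    have h3 : ∑ β : Grid n M, ((bh β i : ℕ) : R) * c β * DD hpd β (del0 s) x =
        - ((s i : R) * del0 s x) := by
      have h4 := it_eul hpd (g := gtop A c) i (fun y hy =>
        heul n M A R c pd hn hM hu hpd i y hy) (es s) x hx
      have h5 : ((es s).map fun β => bh β i).sum = s i := by
        rw [hγ1, Multiset.map_map]
        have h6 := DFunLike.congr_fun hγ2 i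
        rw [Finsupp.finsetSum_apply] at h6
        rw [h6]
        rfl
      rw [h5] at h4
      have h7 : ∀ β : Grid n M, DD hpd β (del0 s) x =
          (-1 : R) ^ s 0 * DD hpd β (it hpd (gtop A c) (es s)) x := by
        intro β
        rw [hdel0 s hs, DD_apply, DD_apply, LinearMap.smul_apply, LinearMap.smul_apply,
          smul_eq_mul, smul_eq_mul, hpd.der β]
        have h5 : pd β ((-1 : R) ^ s 0) = 0 := by
          rcases neg_one_pow_eq_or R (s 0) with h | h
          · rw [h, isDer_one (hpd.der β)]
          · rw [h, map_neg, isDer_one (hpd.der β), neg_zero]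
        rw [h5]
        ring
      have h8 : ∑ β : Grid n M, ((bh β i : ℕ) : R) * c β * DD hpd β (del0 s) x =
          (-1 : R) ^ s 0 * ∑ β : Grid n M, ((bh β i : ℕ) : R) * c β *
            DD hpd β (it hpd (gtop A c) (es s)) x := by
        rw [Finset.mul_sum]
        apply Finset.sum_congr rfl
        intro β _
        rw [h7 β]
        ring
      rw [h8, h4, hdel0 s hs, LinearMap.smul_apply, smul_eq_mul]
      ring
    rw [h3, smul_eq_mul]
    ring
  refine ⟨δ, ?_, ?_, ?_, ?_, ?_⟩
  · -- (B)
    intro x hx
    have h0 : InCone M false (0 : Expo n) := by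
      intro k
      simp
    obtain ⟨γ, hγ1, hγ2⟩ := hes 0 h0
    rw [← mon_zero, hδ, hdel0 0 h0, hγ1]
    have h1 := it_eq hpd hconn hb γ (Fin.elim0 : Fin 0 → Grid n M) (by
      rw [← hγ2]
      simp) x hx
    rw [LinearMap.smul_apply, h1]
    have h2 : ((Finset.univ : Finset (Fin 0)).val.map (Fin.elim0 : Fin 0 → Grid n M)) = 0 := rfl
    rw [h2, it_zero]
    simp
  · -- (C)
    intro i σ x hσ hx
    have h := lin_ext (P := InCone M false)
      ((LinearMap.flip δ x).comp (Dop c i)) 0 (fun s hs => hC i s hs x hx) hσ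
    exact h
  · -- (D)
    intro i σ x _ hσ
    have h := lin_ext (P := InCone M false)
      (LinearMap.flip δ (Dop c i σ)) 0 (fun s hs => by
        rw [LinearMap.flip_apply, hδ, hdel0 s hs, LinearMap.smul_apply,
          killT_it hpd hk (es s) i σ hσ, smul_zero]
        rfl) (x := x) (by assumption)
    exact h
  · -- (E)
    intro β a x ha hx
    let f1 : PP n R →+ R := (pd β).comp ((LinearMap.flip δ x).toAddMonoidHom)
    let g1 : PP n R →+ R := ((LinearMap.flip δ x).toAddMonoidHom).comp (nabA (pd β) c) +
      (LinearMap.flip δ (nab (pd β) c x)).toAddMonoidHom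
    have h := add_ext (P := InCone M false) f1 g1 (fun s hs r => by
      change pd β (δ (r • mon s) x) = δ (nab (pd β) c (r • mon s)) x +
        δ (r • mon s) (nab (pd β) c x)
      rw [nab_smul (hpd.der β), nab_mon (hpd.der β) c β (hpd.val β), mon_mul, map_add,
        map_smul, map_smul, map_smul, map_neg, hδ, hδ, LinearMap.add_apply, LinearMap.smul_apply,
        LinearMap.smul_apply, LinearMap.smul_apply, LinearMap.smul_apply, LinearMap.neg_apply,
        hA β s hs x hx, DD_apply, smul_eq_mul, smul_eq_mul, smul_eq_mul, smul_eq_mul,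
        hpd.der β]
      ring) ha
    exact h
  · -- (F)
    intro d hd hdc hdp a x ha hx
    have hFp : cder d (Fp c) = 0 := by
      rw [cder_Fp]
      unfold Fp
      apply Finset.sum_eq_zero
      intro β _
      simp only [hdc, map_zero]
    have hnab : ∀ y : PP n R, nab d c y = cder d y := by
      intro y
      unfold nab
      rw [hFp, zero_mul, sub_zero]
    have hbase : EqC M (dfunL c d hd (gtop A c)) 0 := by
      intro y hy
      apply hdet n M A R c (dfunL c d hd (gtop A c)) hn hM hu (killT_dfunL hd hk) _ _ y hy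
      · intro s hs hsl
        rw [dfunL_apply', hnab, cder_mon hd, hlow _ (supp_mon hs) (supp_mon hsl)]
        simp
      · rw [dfunL_apply', hJ, isDer_one hd, dfun_Jac hj c hn hM hd hk, sub_zero]
    have hit : ∀ m : Multiset (Grid n M), EqC M (dfunL c d hd (it hpd (gtop A c) m)) 0 := by
      intro m
      induction m using Multiset.induction_on with
      | empty => exact hbase
      | cons β m ih =>
        rw [it_cons]
        intro y hy
        have h1 : dfunL c d hd (DD hpd β (it hpd (gtop A c) m)) =
            DD hpd β (dfunL c d hd (it hpd (gtop A c) m)) :=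
          dfunL_comm c hd (hpd.der β) (hdp β) _
        rw [h1]
        have h2 := eqC_dfunL (c := c) (hpd.der β) ih y hy
        change dfunL c (pd β) (hpd.der β) (dfunL c d hd (it hpd (gtop A c) m)) y = _
        rw [h2, dfunL_apply']
        simp
    have hs0 : ∀ s, InCone M false s → d (del0 s x) = del0 s (cder d x) := by
      intro s hs
      have h1 := hit (es s) x hx
      rw [dfunL_apply', hnab] at h1
      have h2 : d (it hpd (gtop A c) (es s) x) = it hpd (gtop A c) (es s) (cder d x) :=
        sub_eq_zero.mp h1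
      rw [hdel0 s hs, LinearMap.smul_apply, LinearMap.smul_apply, smul_eq_mul, smul_eq_mul, hd, h2]
      have h5 : d ((-1 : R) ^ s 0) = 0 := by
        rcases neg_one_pow_eq_or R (s 0) with h | h
        · rw [h, isDer_one hd]
        · rw [h, map_neg, isDer_one hd, neg_zero]
      rw [h5]
      ring
    let f1 : PP n R →+ R := d.comp ((LinearMap.flip δ x).toAddMonoidHom)
    let g1 : PP n R →+ R := ((LinearMap.flip δ x).toAddMonoidHom).comp (cderA d) +
      (LinearMap.flip δ (cder d x)).toAddMonoidHom
    have h := add_ext (P := InCone M false) f1 g1 (fun s hs r => by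
      change d (δ (r • mon s) x) = δ (cder d (r • mon s)) x + δ (r • mon s) (cder d x)
      have h3 : cder d (r • mon s : PP n R) = d r • mon s := by
        rw [smul_eq_C_mul, cder_C_mul hd, cder_mon hd, mul_zero, add_zero, smul_eq_C_mul]
      rw [h3, map_smul, map_smul, hδ, LinearMap.smul_apply, LinearMap.smul_apply,
        LinearMap.smul_apply, smul_eq_mul, smul_eq_mul, smul_eq_mul, hd, hs0 s hs]) ha
    exact h

end Pool.Agent.Helper95_CM.H75
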