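import Pool.Agent.Helper75_CM.Base

/-!
# DET, GTOP (CM project, MP_31342c_an)
-/

set_option autoImplicit false
set_option linter.unusedSectionVars false

noncomputable section

namespace Pool.Agent.Helper95_CM.H75

open MvPolynomial Pool.Agent.Helper95_CM

theorem det (h2 : Hb2Stmt) : DetStmt := by
  intro n M A R _ c G hn hM hu hG hlow hJ x hx
  obtain ⟨l, hl⟩ := exists_lev x
  obtain ⟨σ, hσ, -, hx2, -⟩ := h2 n M true A R c hn hM hu l x hx hl
  rw [hx2, map_add, map_sum, map_sum]
  rw [Finset.sum_eq_zero, Finset.sum_eq_zero, add_zero]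
  · intro i _
    exact hG i _ (hσ i)
  · intro s _
    have h1 : G (bb A c s) = 0 := by
      unfold bb bbo
      by_cases hs : s.1 = A.top
      · rw [if_pos ⟨rfl, hs⟩]
        exact hJ
      · rw [if_neg (fun h => hs h.2)]
        rcases A.lev s.1 s.2 with h | h
        · exact hlow _ (A.cone s.1 s.2) h
        · exact absurd h.2 hs
    rw [← smul_eq_C_mul, map_smul, h1, smul_zero]

theorem gtop_ (h1 : Hb1Stmt) (h2 : Hb2Stmt) : GtopStmt := by
  intro n M A R _ c hn hM hu
  have hc := h1 n M true A R c hn hM hu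
  refine ⟨?_, ?_, ?_⟩
  · intro x hx hl
    obtain ⟨σ, -, -, -, h⟩ := h2 n M true A R c hn hM hu n x hx hl
    refine h ⟨A.top, A.top_mem rfl⟩ ?_
    change n < A.top 0
    rw [A.top_lev]
    omega
  · have h := hc.basis ⟨A.top, A.top_mem rfl⟩
    have h3 : bb A c (⟨A.top, A.top_mem rfl⟩ : A.Bas) = Jac c := by
      unfold bb bbo
      rw [if_pos ⟨rfl, rfl⟩]
    rw [h3] at h
    unfold gtop
    rw [LinearMap.comp_apply, h, LinearMap.proj_apply, Pi.single_eq_same]
  · intro i σ hσ
    unfold gtop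
    rw [LinearMap.comp_apply, hc.kill i σ hσ, map_zero]

end Pool.Agent.Helper95_CM.H75
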