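import Pool.Agent.Helper75_CM.Base

/-!
# Freeness of the cone over `R[Y]` (CM project, MP_31342c_an)
-/

set_option autoImplicit false
set_option linter.unusedSectionVars false

noncomputable section

namespace Pool.Agent.Helper95_CM.H75

open MvPolynomial Pool.Agent.Helper95_CM

variable {n M : ℕ} {b : Bool} {R : Type} [CommRing R]

section mapl
variable {S : Type} [CommRing S] (g : R →+* S)

lemma supp_map {P : Expo n → Prop} {x : PP n R} (hx : Supp P x) :
    Supp P (MvPolynomial.map g x) := by
  intro s hs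
  rw [coeff_map] at hs
  apply hx
  intro h0
  apply hs
  rw [h0, map_zero]

lemma map_mon (s : Expo n) : MvPolynomial.map g (mon s : PP n R) = mon s := by
  unfold mon
  rw [map_monomial, map_one]

lemma map_Fp (c : Grid n M → R) : MvPolynomial.map g (Fp c) = Fp (fun β => g (c β)) := by
  unfold Fp
  rw [map_sum]
  apply Finset.sum_congr rfl
  intro β _
  rw [map_monomial]

lemma map_th (i : Fin (n + 1)) (x : PP n R) :
    MvPolynomial.map g (th i x) = th i (MvPolynomial.map g x) := by
  ext s
  rw [coeff_map, coeff_th, coeff_th, coeff_map, map_mul, map_natCast]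

lemma map_Yp (c : Grid n M → R) (i : Fin (n + 1)) :
    MvPolynomial.map g (Yp c i) = Yp (fun β => g (c β)) i := by
  unfold Yp
  rw [map_th, map_Fp]

lemma map_Jac (c : Grid n M → R) :
    MvPolynomial.map g (Jac c) = Jac (fun β => g (c β)) := by
  unfold Jac
  rw [RingHom.map_det]
  congr 1
  ext i j : 2
  unfold Hes
  simp only [RingHom.mapMatrix_apply, Matrix.map_apply, Matrix.of_apply]
  rw [map_th, map_th, map_Fp]

lemma map_bbo (b : Bool) (top : Expo n) (c : Grid n M → R) (s : Expo n) :
    MvPolynomial.map g (bbo b top c s) = bbo b top (fun β => g (c β)) s := by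
  unfold bbo
  split_ifs
  · exact map_Jac g c
  · exact map_mon g s

end mapl

lemma aeval_gen (c : Grid n M → R) (β : Grid n M) :
    ((aeval c : MvPolynomial (Grid n M) ℤ →ₐ[ℤ] R) : MvPolynomial (Grid n M) ℤ →+* R)
      (gen n M β) = c β := by
  unfold gen
  exact aeval_X c β

/-- the relation `red` over an arbitrary ring -/
lemma red_map (A : CAD n M b) (c : Grid n M → R) (s : Expo n) (hs : InCone M b s) :
    ∃ (a : Expo n → R) (σ : Fin (n + 1) → PP n R),
      (∀ i, IsCone M b (σ i)) ∧ (∀ i, Supp (fun s' => s' 0 + 1 = s 0) (σ i)) ∧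
      C (dt A c) * mon s = (∑ s' ∈ A.Bas with s' 0 = s 0, C (a s') * bbo b A.top c s')
        + ∑ i, Yp c i * σ i := by
  obtain ⟨a, σ, h1, h2, h3⟩ := A.red s hs
  let g : MvPolynomial (Grid n M) ℤ →+* R := (aeval c : MvPolynomial (Grid n M) ℤ →ₐ[ℤ] R)
  have hg : (fun β => g (gen n M β)) = c := by
    funext β
    exact aeval_gen c β
  refine ⟨fun s' => g (a s'), fun i => MvPolynomial.map g (σ i), fun i => supp_map g (h1 i),
    fun i => supp_map g (h2 i), ?_⟩
  have h4 := congrArg (MvPolynomial.map g) h3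
  rw [map_mul, map_C, map_mon, map_add, map_sum, map_sum] at h4
  have h5 : g A.Dt = dt A c := rfl
  rw [h5] at h4
  rw [h4]
  congr 1
  · apply Finset.sum_congr rfl
    intro s' _
    rw [map_mul, map_C, map_bbo, hg]
  · apply Finset.sum_congr rfl
    intro i _
    rw [map_mul, map_Yp, hg]

lemma hes_cone (c : Grid n M → R) (i j : Fin (n + 1)) :
    IsCone M false (Hes c i j) := supp_th i (supp_th j (cone_Fp c))

/-- the parametrisation of the cone -/
def Psm (A : CAD n M b) (c : Grid n M → R) :
    (A.Bas → MvPolynomial (Fin (n + 1)) R) →ₗ[R] PP n R :=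
  ∑ s : A.Bas, (LinearMap.mulRight R (bb A c s.1)).comp
    ((aeval (Yp c) : MvPolynomial (Fin (n + 1)) R →ₐ[R] PP n R).toLinearMap.comp
      (LinearMap.proj s))

lemma Psm_apply (A : CAD n M b) (c : Grid n M → R)
    (P : A.Bas → MvPolynomial (Fin (n + 1)) R) :
    Psm A c P = ∑ s : A.Bas, aeval (Yp c) (P s) * bb A c s.1 := by
  unfold Psm
  rw [LinearMap.sum_apply]
  rfl

lemma Psm_mul (A : CAD n M b) (c : Grid n M → R)
    (P : A.Bas → MvPolynomial (Fin (n + 1)) R) (Q : MvPolynomial (Fin (n + 1)) R) :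
    Psm A c (fun s => Q * P s) = aeval (Yp c) Q * Psm A c P := by
  rw [Psm_apply, Psm_apply, Finset.mul_sum]
  apply Finset.sum_congr rfl
  intro s _
  rw [map_mul]
  ring

lemma Psm_single (A : CAD n M b) (c : Grid n M → R) (s : A.Bas) :
    Psm A c (Pi.single s 1) = bb A c s.1 := by
  classical
  rw [Psm_apply, Finset.sum_eq_single s]
  · rw [Pi.single_eq_same, map_one, one_mul]
  · intro s' _ hne
    rw [Pi.single_eq_of_ne hne, map_zero, zero_mul]
  · intro h
    exact absurd (Finset.mem_univ s) h

lemma Psm_inj (A : CAD n M b) (c : Grid n M → R) (hu : IsUnit (dt A c)) :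
    Function.Injective (Psm A c) := by
  classical
  rw [injective_iff_map_eq_zero]
  intro P hP
  rw [Psm_apply] at hP
  have h := A.inj R c hu (fun s => if h : s ∈ A.Bas then P ⟨s, h⟩ else 0) (by
    rw [← hP, ← Finset.sum_coe_sort A.Bas]
    apply Finset.sum_congr rfl
    intro s _
    rw [dif_pos s.2]
    rfl)
  funext s
  have h2 := h s.1 s.2
  rw [dif_pos s.2] at h2
  exact h2

lemma Psm_surj (A : CAD n M b) (c : Grid n M → R) (hu : IsUnit (dt A c)) :
    ∀ (l : ℕ) (s : Expo n), InCone M b s → s 0 = l → (mon s : PP n R) ∈ LinearMap.range (Psm A c) := by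
  intro l
  induction l using Nat.strong_induction_on with
  | _ l ih =>
    intro s hs hl
    obtain ⟨a, σ, h1, h2, h3⟩ := red_map A c s hs
    have hY : ∀ (i : Fin (n + 1)) (x : PP n R), x ∈ LinearMap.range (Psm A c) →
        Yp c i * x ∈ LinearMap.range (Psm A c) := by
      rintro i x ⟨P, rfl⟩
      refine ⟨fun s => X i * P s, ?_⟩
      rw [Psm_mul, aeval_X]
    have h4 : dt A c • (mon s : PP n R) ∈ LinearMap.range (Psm A c) := by
      rw [smul_eq_C_mul, h3]
      apply Submodule.add_mem
      · apply Submodule.sum_mem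
        intro s' hs'
        rw [Finset.mem_filter] at hs'
        rw [← smul_eq_C_mul]
        apply Submodule.smul_mem
        exact ⟨Pi.single ⟨s', hs'.1⟩ 1, Psm_single A c ⟨s', hs'.1⟩⟩
      · apply Submodule.sum_mem
        intro i _
        apply hY
        classical
        rw [← MvPolynomial.support_sum_monomial_coeff (σ i)]
        apply Submodule.sum_mem
        intro s' hs'
        have h5 : (monomial s' (coeff s' (σ i)) : PP n R) = coeff s' (σ i) • mon s' := by
          unfold mon
          rw [smul_monomial, smul_eq_mul, mul_one]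
        rw [h5]
        apply Submodule.smul_mem
        have h6 := h2 i s' (MvPolynomial.mem_support_iff.mp hs')
        exact ih (s' 0) (by omega) s' (h1 i s' (MvPolynomial.mem_support_iff.mp hs')) rfl
    obtain ⟨u, hu'⟩ := hu
    have h7 : (mon s : PP n R) = (↑u⁻¹ : R) • (dt A c • mon s) := by
      rw [smul_smul, ← hu', Units.inv_mul, one_smul]
    rw [h7]
    exact Submodule.smul_mem _ _ h4

lemma cone_aeval (c : Grid n M → R) (Q : MvPolynomial (Fin (n + 1)) R) {x : PP n R}
    (hx : IsCone M b x) : IsCone M b (aeval (Yp c) Q * x) := by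
  induction Q using MvPolynomial.induction_on generalizing x with
  | C r =>
    rw [← mem_coneSub, aeval_C, ← Algebra.smul_def]
    exact Submodule.smul_mem _ _ hx
  | add p q hp hq =>
    rw [map_add, add_mul, ← mem_coneSub]
    exact Submodule.add_mem _ (hp hx) (hq hx)
  | mul_X p i hp =>
    rw [map_mul, aeval_X, mul_assoc]
    exact hp (cone_mul (cone_Yp c i) hx)

/-- coordinates over `R[Y]` -/
lemma exists_free (A : CAD n M b) (c : Grid n M → R) (hu : IsUnit (dt A c)) :
    ∃ Φ : PP n R →ₗ[R] (A.Bas → MvPolynomial (Fin (n + 1)) R),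
      (∀ x, IsCone M b x → Psm A c (Φ x) = x) ∧
      (∀ (x : PP n R) (i : Fin (n + 1)), IsCone M b x →
        ∀ s, Φ (Yp c i * x) s = X i * Φ x s) ∧
      (∀ s : A.Bas, IsCone M b (bb A c s.1) → Φ (bb A c s.1) = Pi.single s 1) := by
  classical
  have h1 : ∀ s : Expo n, ∃ P, InCone M b s → Psm A c P = mon s := by
    intro s
    by_cases h : InCone M b s
    · obtain ⟨P, hP⟩ := Psm_surj A c hu (s 0) s h rfl
      exact ⟨P, fun _ => hP⟩
    · exact ⟨0, fun h2 => absurd h2 h⟩
  choose P hP using h1
  let Φ : PP n R →ₗ[R] (A.Bas → MvPolynomial (Fin (n + 1)) R) :=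
    (MvPolynomial.basisMonomials (Fin (n + 1)) R).constr R P
  have hΦ : ∀ s, Φ (mon s) = P s := by
    intro s
    have h := (MvPolynomial.basisMonomials (Fin (n + 1)) R).constr_basis R P s
    rw [MvPolynomial.coe_basisMonomials] at h
    exact h
  have h2 : ∀ x, IsCone M b x → Psm A c (Φ x) = x := by
    intro x hx
    have h := lin_ext (P := InCone M b) ((Psm A c).comp Φ) (LinearMap.id) (by
      intro s hs
      rw [LinearMap.comp_apply, hΦ, LinearMap.id_apply]
      exact hP s hs) hx
    exact h
  refine ⟨Φ, h2, ?_, ?_⟩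
  · intro x i hx s
    have h3 : Psm A c (Φ (Yp c i * x)) = Psm A c (fun s => X i * Φ x s) := by
      rw [h2 _ (cone_mul (cone_Yp c i) hx), Psm_mul, aeval_X, h2 x hx]
    have h4 := Psm_inj A c hu h3
    exact congrFun h4 s
  · intro s hs
    apply Psm_inj A c hu
    rw [h2 _ hs, Psm_single]

end Pool.Agent.Helper95_CM.H75
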