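import Pool.Agent.Helper75_CM.Det
import Pool.Agent.Helper75_CM.Free

/-!
# RJ (CM project, MP_31342c_an)
-/

set_option autoImplicit false
set_option linter.unusedSectionVars false

noncomputable section

namespace Pool.Agent.Helper95_CM.H75

open MvPolynomial Pool.Agent.Helper95_CM

variable {n M : ℕ} {b : Bool} {R : Type} [CommRing R]

/-- `g(cder d x)` subtracted from `d (g x)`: a linear functional -/
def cdL (d : R →+ R) (hd : IsDer d) (G : PP n R →ₗ[R] R) : PP n R →ₗ[R] R where
  toFun x := d (G x) - G (cder d x)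
  map_add' x y := by
    rw [cder_add, map_add, map_add, map_add]
    ring
  map_smul' r x := by
    have h1 : G (r • x) = r * G x := by rw [map_smul, smul_eq_mul]
    have h2 : G (cder d (r • x)) = d r * G x + r * G (cder d x) := by
      rw [smul_eq_C_mul, cder_C_mul hd, map_add, ← smul_eq_C_mul, ← smul_eq_C_mul, map_smul,
        map_smul, smul_eq_mul, smul_eq_mul]
    rw [h1, h2, hd, RingHom.id_apply, smul_eq_mul]
    ring

lemma cdL_apply (d : R →+ R) (hd : IsDer d) (G : PP n R →ₗ[R] R) (x : PP n R) :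
    cdL d hd G x = d (G x) - G (cder d x) := rfl

lemma cder_Fp (d : R →+ R) (c : Grid n M → R) :
    cder d (Fp c) = Fp (fun β => d (c β)) := by
  unfold Fp
  rw [cder_sum]
  apply Finset.sum_congr rfl
  intro β _
  rw [cder_monomial]

lemma cder_Fp_delta (d : R →+ R) (c : Grid n M → R) (β : Grid n M)
    (h : ∀ β', d (c β') = if β' = β then 1 else 0) : cder d (Fp c) = mon (gex β) := by
  classical
  rw [cder_Fp]
  unfold Fp mon
  rw [Finset.sum_eq_single β]
  · simp only [h β, if_true]
  · intro β' _ hne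
    simp only [h β', if_neg hne, map_zero]
  · intro h2
    exact absurd (Finset.mem_univ β) h2

lemma cder_Yp_delta {d : R →+ R} (hd : IsDer d) (c : Grid n M → R) (β : Grid n M)
    (h : ∀ β', d (c β') = if β' = β then 1 else 0) (i : Fin (n + 1)) :
    cder d (Yp c i) = C ((bh β i : ℕ) : R) * mon (gex β) := by
  unfold Yp
  rw [cder_th hd, cder_Fp_delta d c β h, th_mon]
  rfl

lemma levLe_of_hasLev {l : ℕ} {x : PP n R} (h : HasLev l x) : LevLe l x :=
  supp_mono (fun _ hs => le_of_eq hs) h

/-- `gtop` kills `Y_i x` for `x` of level `n` -/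
lemma gtop_Y (h1 : GtopStmt) (A : CAD n M true) (c : Grid n M → R) (hn : 1 ≤ n) (hM : 1 ≤ M)
    (hu : IsUnit (dt A c)) (i : Fin (n + 1)) {x : PP n R} (hx : IsCone M true x)
    (hl : LevLe n x) : gtop A c (Yp c i * x) = 0 := by
  obtain ⟨hlow, -, hk⟩ := h1 n M A R c hn hM hu
  have h := hk i x hx
  rw [Dop_apply, map_sub] at h
  rw [hlow (th i x) (supp_th i hx) (supp_th i hl), zero_sub, neg_eq_zero] at h
  exact h

lemma jac_cone (hj : JConeStmt) (c : Grid n M → R) (hn : 1 ≤ n) (hM : 1 ≤ M) :
    IsCone M true (Jac c) ∧ HasLev (n + 1) (Jac c) :=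
  hj n M R (fun i => th i (Fp c)) hn hM
    (fun i => ⟨supp_th i (cone_Fp c), supp_th i (lev_Fp c)⟩)

theorem rj (hb1 : Hb1Stmt) (h1 : GtopStmt) (hj : JConeStmt) (hz : JZetaStmt) : RjStmt := by
  intro n M A R _ c pd hn hM hu hpd
  classical
  obtain ⟨Φ, hΦ1, hΦ2, hΦ3⟩ := exists_free A c hu
  obtain ⟨hlow, hJ, hk⟩ := h1 n M A R c hn hM hu
  have hcrd := hb1 n M true A R c hn hM hu
  obtain ⟨hJc, hJl⟩ := jac_cone hj c hn hM
  let T : A.Bas := ⟨A.top, A.top_mem rfl⟩
  have hbT : bb A c T.1 = Jac c := by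
    unfold bb bbo
    rw [if_pos ⟨rfl, rfl⟩]
  have hbc : ∀ s : A.Bas, IsCone M true (bb A c s.1) := by
    intro s
    by_cases hs : s.1 = A.top
    · have : s = T := Subtype.ext hs
      rw [this, hbT]
      exact hJc
    · unfold bb bbo
      rw [if_neg (fun h => hs h.2)]
      exact supp_mon (A.cone s.1 s.2)
  -- the functionals
  let κ : PP n R →ₗ[R] R := (MvPolynomial.lcoeff R (0 : Fin (n + 1) →₀ ℕ)).comp
    ((LinearMap.proj T).comp Φ)
  let Rj : Fin (n + 1) → PP n R →ₗ[R] R := fun j =>
    (MvPolynomial.lcoeff R (Finsupp.single j 1)).comp ((LinearMap.proj T).comp Φ)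
  have hκ : ∀ x, κ x = coeff 0 (Φ x T) := fun x => rfl
  have hRj : ∀ j x, Rj j x = coeff (Finsupp.single j 1) (Φ x T) := fun j x => rfl
  have hRY : ∀ (i j : Fin (n + 1)) (x : PP n R), IsCone M true x →
      Rj j (Yp c i * x) = if i = j then κ x else 0 := by
    intro i j x hx
    rw [hRj, hΦ2 x i hx T, hκ, mul_comm, coeff_mul_X']
    by_cases hij : i = j
    · subst hij
      rw [if_pos rfl, if_pos, tsub_self]
      rw [Finsupp.mem_support_iff, Finsupp.single_eq_same]
      exact one_ne_zero
    · rw [if_neg hij, if_neg]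
      rw [Finsupp.mem_support_iff, not_not, Finsupp.single_eq_of_ne hij]
  have hκY : ∀ (i : Fin (n + 1)) (x : PP n R), IsCone M true x → κ (Yp c i * x) = 0 := by
    intro i x hx
    rw [hκ, hΦ2 x i hx T, mul_comm, coeff_mul_X', if_neg]
    simp
  have hκb : ∀ s : A.Bas, κ (bb A c s.1) = if s = T then 1 else 0 := by
    intro s
    rw [hκ, hΦ3 s (hbc s)]
    by_cases h : s = T
    · subst h
      rw [if_pos rfl, Pi.single_eq_same, coeff_zero_one]
    · rw [if_neg h, Pi.single_eq_of_ne' h, coeff_zero]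
  have hgb : ∀ s : A.Bas, gtop A c (bb A c s.1) = if s = T then 1 else 0 := by
    intro s
    unfold gtop
    rw [LinearMap.comp_apply, hcrd.basis s, LinearMap.proj_apply]
    by_cases h : s = T
    · subst h
      rw [if_pos rfl]
      exact Pi.single_eq_same _ _
    · rw [if_neg h]
      exact Pi.single_eq_of_ne' h _
  -- `κ = gtop` on level `n+1`
  have hκg : ∀ x, IsCone M true x → HasLev (n + 1) x → κ x = gtop A c x := by
    intro x hx hl
    refine lin_ext (P := fun s => InCone M true s ∧ s 0 = n + 1) κ (gtop A c) ?_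
      (fun s hs => ⟨hx s hs, hl s hs⟩)
    rintro s ⟨hs, hs0⟩
    obtain ⟨a, σ, e1, e2, e3⟩ := red_map A c s hs
    have h4 : dt A c * κ (mon s) = dt A c * gtop A c (mon s) := by
      have h5 : dt A c * κ (mon s) = κ (C (dt A c) * mon s) := by
        rw [← smul_eq_C_mul, map_smul, smul_eq_mul]
      have h6 : dt A c * gtop A c (mon s) = gtop A c (C (dt A c) * mon s) := by
        rw [← smul_eq_C_mul, map_smul, smul_eq_mul]
      rw [h5, h6, e3, map_add, map_add, map_sum, map_sum, map_sum, map_sum]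
      congr 1
      · apply Finset.sum_congr rfl
        intro s' hs'
        rw [Finset.mem_filter] at hs'
        rw [← smul_eq_C_mul, map_smul, map_smul]
        congr 1
        have h7 := hκb ⟨s', hs'.1⟩
        have h8 := hgb ⟨s', hs'.1⟩
        unfold bb at h7 h8
        rw [h7, h8]
      · apply Finset.sum_congr rfl
        intro i _
        rw [hκY i _ (e1 i), gtop_Y h1 A c hn hM hu i (e1 i)]
        refine supp_mono ?_ (e2 i)
        intro s' hs'
        omega
    exact hu.mul_left_cancel h4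
  refine ⟨Rj, ?_⟩
  intro β τ hτ hτ0
  have hval : ∀ β', pd β (c β') = if β' = β then 1 else 0 := fun β' => hpd.val β β'
  let L1 : PP n R →ₗ[R] R := cdL (pd β) (hpd.der β) (gtop A c)
  let L2 : PP n R →ₗ[R] R := - ∑ j, ((bh β j : ℕ) : R) •
    (Rj j).comp (LinearMap.mulLeft R (mon (gex β)))
  have hL1 : ∀ x, L1 x = pd β (gtop A c x) - gtop A c (cder (pd β) x) := fun x => rfl
  have hL2 : ∀ x, L2 x = - ∑ j, ((bh β j : ℕ) : R) * Rj j (mon (gex β) * x) := by
    intro x
    change (- ∑ j, ((bh β j : ℕ) : R) • (Rj j).comp (LinearMap.mulLeft R (mon (gex β)))) x = _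
    rw [LinearMap.neg_apply, LinearMap.sum_apply]
    rfl
  have hmc : ∀ {x : PP n R}, IsCone M true x → IsCone M true (mon (gex β) * x) :=
    fun hx => cone_mul (supp_mon (inCone_gex β)) hx
  -- on `Y_i σ`
  have hA : ∀ (i : Fin (n + 1)) (σ : Expo n), InCone M true σ → σ 0 = n →
      L1 (Yp c i * mon σ) = L2 (Yp c i * mon σ) := by
    intro i σ hσ hσ0
    have hσc : IsCone M true (mon σ : PP n R) := supp_mon hσ
    have hσl : HasLev n (mon σ : PP n R) := supp_mon hσ0
    rw [hL1, hL2, gtop_Y h1 A c hn hM hu i hσc (levLe_of_hasLev hσl), map_zero,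
      cder_mul (hpd.der β), cder_mon (hpd.der β), mul_zero, add_zero,
      cder_Yp_delta (hpd.der β) c β hval i, mul_assoc, ← smul_eq_C_mul, map_smul, smul_eq_mul]
    have h5 : ∀ j : Fin (n + 1), Rj j (mon (gex β) * (Yp c i * mon σ)) =
        if i = j then gtop A c (mon (gex β) * mon σ) else 0 := by
      intro j
      have h6 : (mon (gex β) * (Yp c i * mon σ) : PP n R) = Yp c i * (mon (gex β) * mon σ) := by
        ring
      rw [h6, hRY i j _ (hmc hσc), hκg _ (hmc hσc)]
      rw [mon_mul]
      refine supp_mon ?_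
      change (gex β) 0 + σ 0 = n + 1
      rw [gex_zero, hσ0]
      omega
    simp only [h5, mul_ite, mul_zero]
    rw [Finset.sum_ite_eq, if_pos (Finset.mem_univ i)]
    ring
  -- on `Jac`
  have hB : L1 (Jac c) = L2 (Jac c) := by
    obtain ⟨ζ, hζ1, hζ2, hζ3⟩ := hz n M R c β hn hM
    rw [hL1, hL2, hJ, isDer_one (hpd.der β), zero_sub, hζ3 (pd β) (hpd.der β) hval, map_sum, hζ2]
    congr 1
    apply Finset.sum_congr rfl
    intro j _
    have h5 : (((bh β j : ℕ) : PP n R) * ζ j) = ((bh β j : ℕ) : R) • ζ j := by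
      rw [smul_eq_C_mul, map_natCast]
    rw [h5, map_smul, smul_eq_mul, map_sum]
    congr 1
    rw [Finset.sum_eq_single j]
    · rw [hRY j j _ (hζ1 j).1, if_pos rfl, hκg _ (hζ1 j).1 (hζ1 j).2]
    · intro i _ hne
      rw [hRY i j _ (hζ1 i).1, if_neg hne]
    · intro h
      exact absurd (Finset.mem_univ j) h
  -- conclusion on a monomial of level `n+1`
  have hmain : L1 (mon τ) = L2 (mon τ) := by
    obtain ⟨a, σ, e1, e2, e3⟩ := red_map A c τ hτ
    have h4 : dt A c * L1 (mon τ) = dt A c * L2 (mon τ) := by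
      have h5 : dt A c * L1 (mon τ) = L1 (C (dt A c) * mon τ) := by
        rw [← smul_eq_C_mul, map_smul, smul_eq_mul]
      have h6 : dt A c * L2 (mon τ) = L2 (C (dt A c) * mon τ) := by
        rw [← smul_eq_C_mul, map_smul, smul_eq_mul]
      rw [h5, h6, e3, map_add, map_add, map_sum, map_sum, map_sum, map_sum]
      congr 1
      · apply Finset.sum_congr rfl
        intro s' hs'
        rw [Finset.mem_filter] at hs'
        rw [← smul_eq_C_mul, map_smul, map_smul]
        congr 1
        have h7 : s' = A.top := by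
          rcases A.lev s' hs'.1 with h | h
          · omega
          · exact h.2
        have h8 : bbo true A.top c s' = Jac c := by
          unfold bbo
          rw [if_pos ⟨rfl, h7⟩]
        rw [h8]
        exact hB
      · apply Finset.sum_congr rfl
        intro i _
        have h9 := lin_ext (P := fun s => InCone M true s ∧ s 0 = n)
          (L1.comp (LinearMap.mulLeft R (Yp c i))) (L2.comp (LinearMap.mulLeft R (Yp c i)))
          (fun s hs => hA i s hs.1 hs.2) (x := σ i)
          (fun s hs => ⟨e1 i s hs, by have := e2 i s hs; omega⟩)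
        exact h9
    exact hu.mul_left_cancel h4
  rw [hL1, hL2, cder_mon (hpd.der β), map_zero, sub_zero] at hmain
  exact hmain

end Pool.Agent.Helper95_CM.H75
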